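import Pool.Agent.FinVol2.Defs
import Pool.Agent.FinVol2.Glue

set_option autoImplicit false
open Matrix MeasureTheory Complex Topology Filter
open scoped ContDiff ComplexConjugate ComplexOrder ENNReal

namespace Pool.Agent.Results.MP_940f24_an.MeromorphicExtension

open Pool.Agent.FinVol Pool.Agent.FinVol2 Pool.Agent.FinVol2.Final
open Pool.Agent.FinVol2.BI (bishop)
open Pool.Agent.FinVol2.N1 (null_of_analytic)
open Pool.Agent.FinVol2.N2 (pullback_props)
open Pool.Agent.FinVol2.N3 (local_finite)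
open Pool.Agent.FinVol2.N4 (global_abs)
open Pool.Agent.FinVol2.N5 (loc_of_global)
open Pool.Agent.FinVol2.N6 (compl_preconnected irreducible_graph)

/-- **Meromorphic extension across a point under finite image volume.**  Let `k ≥ 1`, let `X` be a compact
reduced complex space with a Hermitian metric form `η`, and let `f` be a meromorphic mapping from the punctured unit
polydisk `Δ^k ∖ {0}` to `X`, with analytic nowhere dense indeterminacy set `I`.  If the image of `f` has finite volume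
`∫ (f^*η)^k = k! ∫ det (f^*η) dV < ∞`, then `f` extends meromorphically to `0`: it is a meromorphic mapping from
the polydisk `Δ^k` to `X`, i.e. the closure of its graph in `Δ^k × X` is an irreducible analytic subset of
dimension `≤ k`. -/
theorem result {X : Type} [TopologicalSpace X] [CompactSpace X] [T2Space X] (S : ComplexSpace X)
    (η : HermitianForm S) (k : ℕ) (hk : 1 ≤ k) (I : Set (Fin k → ℂ)) (f : (Fin k → ℂ) → X)
    (hI : IsAnalyticSubset (Metric.ball 0 1 \ {0}) I)
    (hf : IsMeromorphic S (Metric.ball 0 1 \ {0}) I f)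
    (hvol : ∫⁻ z in (Metric.ball 0 1 \ {0}) \ I, ENNReal.ofReal ((η.pullback f z).det).re < ⊤) :
    IsMeromorphic S (Metric.ball 0 1) (insert 0 I) f := by
  obtain ⟨m, rfl⟩ : ∃ m, k = m + 1 := ⟨k - 1, by omega⟩
  set U : Set (Fin (m + 1) → ℂ) := Metric.ball 0 1 \ {0} with hU
  have hUo : IsOpen U := Metric.isOpen_ball.sdiff isClosed_singleton
  obtain ⟨hI0, hG⟩ := null_of_analytic U I hUo hI hf.interior_eq
  obtain ⟨hp1, hp2, hp3, hp4⟩ := pullback_props S η (U \ I) hG f hf.holomorphic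
  have hA := analyticDimLE S U _ hf.analytic hf.dim
  have hfin := fun z0 hz0 => local_finite S η U I hUo hG f hf.holomorphic hA z0 hz0
  obtain ⟨hint, hclose⟩ := global_abs (η.pullback f) I hI hI0 hG hp1 hp2 hp3 hp4 hfin hvol
  have hset : Metric.ball 0 1 \ insert 0 I = U \ I := by
    ext z
    simp only [hU, Set.mem_sdiff, Set.mem_insert_iff, Set.mem_singleton_iff]
    tauto
  have hGb : U \ I ⊆ Metric.ball 0 1 := fun z hz => hz.1.1
  have hgc : ∀ (z : Fin (m + 1) → ℂ) (x : X), z ∈ U →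
      ((z, x) ∈ graphClosure (Metric.ball 0 1) (insert 0 I) f ↔ (z, x) ∈ graphClosure U I f) := by
    intro z x hz
    simp only [graphClosure, hset, Set.mem_inter_iff, Set.mem_ofPred_eq]
    have h1 : z ∈ Metric.ball (0 : Fin (m + 1) → ℂ) 1 := hz.1
    simp only [hz, h1, true_and]
  -- the local description at the points over the origin
  have hzero : ∀ (i : S.ι) (b : X), b ∈ (S.chart i).source →
      ∃ V : Set ((Fin (m + 1) → ℂ) × (Fin (S.chart i).N → ℂ)), IsOpen V ∧ (0, (S.chart i).φ b) ∈ V ∧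
      (∃ (n : ℕ) (g : Fin n → (Fin (m + 1) → ℂ) × (Fin (S.chart i).N → ℂ) → ℂ),
        (∀ j, AnalyticOnNhd ℂ (g j) V) ∧
        ∀ z', ∀ x' ∈ (S.chart i).source, (z', (S.chart i).φ x') ∈ V →
          ((z', x') ∈ graphClosure (Metric.ball 0 1) (insert 0 I) f ↔ ∀ j, g j (z', (S.chart i).φ x') = 0)) ∧
      ∃ π : ((Fin (m + 1) → ℂ) × (Fin (S.chart i).N → ℂ)) →L[ℂ] (Fin (m + 1) → ℂ), ∀ c,
        {p : (Fin (m + 1) → ℂ) × X | p.2 ∈ (S.chart i).source ∧ (p.1, (S.chart i).φ p.2) ∈ V ∧
          p ∈ graphClosure (Metric.ball 0 1) (insert 0 I) f ∧ π (p.1, (S.chart i).φ p.2) = c}.Finite := by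
    intro i b hb
    obtain ⟨ρ, hρ1, hL⟩ := loc_of_global S η (U \ I) hG hGb f hf.holomorphic hint hclose i b hb
    obtain ⟨δ, M, g, π, hδ, hg, hiff, hfinite⟩ := bishop _ _ ρ _ _ _ hL
    set τ : (Fin (m + 1) → ℂ) × (Fin (S.chart i).N → ℂ) → (Fin (m + 1) → ℂ) × (Fin (S.chart i).N → ℂ) :=
      fun p => (p.1, p.2 - (S.chart i).φ b) with hτ
    have hτc : Continuous τ := by fun_prop
    have hτa : ∀ p, AnalyticAt ℂ τ p := fun p => by
      refine AnalyticAt.prod analyticAt_fst ?_
      exact analyticAt_snd.sub analyticAt_const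
    have hmin : 0 < min δ ρ := lt_min hδ hL.pos
    have hkey : ∀ z', ∀ x' ∈ (S.chart i).source, τ (z', (S.chart i).φ x') ∈ Metric.ball 0 (min δ ρ) →
        ((z', x') ∈ graphClosure (Metric.ball 0 1) (insert 0 I) f ↔ ∀ j, g j (τ (z', (S.chart i).φ x')) = 0) ∧
        ((z', x') ∈ graphClosure (Metric.ball 0 1) (insert 0 I) f →
          τ (z', (S.chart i).φ x') ∈ closure (graphOn'
            {z | z ∈ U \ I ∧ f z ∈ (S.chart i).source ∧ ‖z‖ < ρ ∧ ‖(S.chart i).φ (f z) - (S.chart i).φ b‖ < ρ}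
            (fun z => (S.chart i).φ (f z) - (S.chart i).φ b))) := by
      intro z' x' hx' hmem
      have hmem' : ‖τ (z', (S.chart i).φ x')‖ < min δ ρ := by simpa using hmem
      have h1 : ‖z'‖ < ρ := (norm_fst_le (τ (z', (S.chart i).φ x'))).trans_lt (hmem'.trans_le (min_le_right _ _))
      have h2 : ‖(S.chart i).φ x' - (S.chart i).φ b‖ < ρ :=
        (norm_snd_le (τ (z', (S.chart i).φ x'))).trans_lt (hmem'.trans_le (min_le_right _ _))
      have h3 : z' ∈ Metric.ball (0 : Fin (m + 1) → ℂ) 1 := by simpa using h1.trans hρ1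
      have h4 := mem_closure_iff_local S (U \ I) f i b ρ z' x' hx' h1 h2
      have h5 : (z', x') ∈ graphClosure (Metric.ball 0 1) (insert 0 I) f ↔
          (z', x') ∈ closure {p : (Fin (m + 1) → ℂ) × X | p.1 ∈ U \ I ∧ p.2 = f p.1} := by
        simp only [graphClosure, hset, Set.mem_inter_iff, Set.mem_ofPred_eq, h3, true_and]
      have h6 : τ (z', (S.chart i).φ x') ∈ Metric.ball 0 δ := by
        simpa using hmem'.trans_le (min_le_left _ _)
      refine ⟨?_, ?_⟩
      · rw [h5, h4]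
        exact hiff _ h6
      · intro h7
        exact h4.1 (h5.1 h7)
    refine ⟨τ ⁻¹' Metric.ball 0 (min δ ρ), Metric.isOpen_ball.preimage hτc, ?_, ⟨M, fun j p => g j (τ p), ?_, ?_⟩,
      π, ?_⟩
    · simp [hτ, hmin]
    · intro j p hp
      have hp' : τ p ∈ Metric.ball 0 δ := Metric.ball_subset_ball (min_le_left _ _) hp
      exact (hg j _ hp').comp (hτa p)
    · intro z' x' hx' hmem
      exact (hkey z' x' hx' hmem).1
    · intro c
      have hinj : Set.InjOn (fun p : (Fin (m + 1) → ℂ) × X => τ (p.1, (S.chart i).φ p.2))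
          {p : (Fin (m + 1) → ℂ) × X | p.2 ∈ (S.chart i).source ∧
            (p.1, (S.chart i).φ p.2) ∈ τ ⁻¹' Metric.ball 0 (min δ ρ) ∧
            p ∈ graphClosure (Metric.ball 0 1) (insert 0 I) f ∧ π (p.1, (S.chart i).φ p.2) = c} := by
        intro p hp q hq hpq
        simp only [hτ, Prod.mk.injEq, sub_left_inj] at hpq
        have h8 := (S.chart i).isEmbedding.injective (a₁ := ⟨p.2, hp.1⟩) (a₂ := ⟨q.2, hq.1⟩) hpq.2
        exact Prod.ext hpq.1 (congrArg Subtype.val h8)
      refine Set.Finite.of_finite_image (((hfinite (c - π (0, (S.chart i).φ b)))).subset ?_) hinj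
      rintro _ ⟨p, ⟨hp1, hp2, hp3, hp4⟩, rfl⟩
      refine ⟨Metric.ball_subset_ball (min_le_left _ _) hp2, (hkey p.1 p.2 hp1 hp2).2 hp3, ?_⟩
      have h9 : τ (p.1, (S.chart i).φ p.2) = (p.1, (S.chart i).φ p.2) - (0, (S.chart i).φ b) := by
        simp [hτ]
      change π (τ (p.1, (S.chart i).φ p.2)) = _
      rw [h9, map_sub, hp4]
  refine ⟨?_, ?_, ?_, ?_, ?_, ?_, ?_⟩
  · intro z hz
    rcases hz with rfl | hz
    · simp
    · exact (hf.subset hz).1
  · rw [hset]; exact hG
  · have h1 : volume (insert 0 I) = 0 := by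
      rw [Set.insert_eq]
      exact measure_union_null (measure_singleton 0) hI0
    have h2 : ∀ᵐ z ∂(volume : Measure (Fin (m + 1) → ℂ)), z ∈ (insert 0 I)ᶜ := by
      rw [ae_iff]
      simp only [Set.mem_compl_iff, not_not]
      exact h1
    exact interior_eq_empty_iff_dense_compl.2 (Measure.dense_of_ae h2)
  · rw [hset]; exact hf.holomorphic
  · refine ⟨fun p hp => hp.1, ?_⟩
    intro z hz i x hx
    by_cases hz0 : z = 0
    · subst hz0
      obtain ⟨V, hV, hzV, h1, _⟩ := hzero i x hx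
      exact ⟨V, hV, hzV, h1⟩
    · have hzU : z ∈ U := ⟨hz, hz0⟩
      obtain ⟨V, hV, hzV, n, g, hg, hiff⟩ := hf.analytic.2 z hzU i x hx
      refine ⟨V ∩ {p | p.1 ∈ U}, hV.inter (hUo.preimage continuous_fst), ⟨hzV, hzU⟩, n, g,
        fun j => (hg j).mono Set.inter_subset_left, ?_⟩
      intro z' x' hx' hmem
      rw [hgc z' x' hmem.2]
      exact hiff z' x' hx' hmem.1
  · rintro ⟨z, x⟩ hp i hx
    have hz : z ∈ Metric.ball (0 : Fin (m + 1) → ℂ) 1 := hp.1
    by_cases hz0 : z = 0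
    · subst hz0
      obtain ⟨V, hV, hzV, _, π, hπ⟩ := hzero i x hx
      set T : Set ((Fin (m + 1) → ℂ) × X) := {p : (Fin (m + 1) → ℂ) × X | p.2 ∈ (S.chart i).source ∧
        (p.1, (S.chart i).φ p.2) ∈ V ∧ p ∈ graphClosure (Metric.ball 0 1) (insert 0 I) f ∧
          π (p.1, (S.chart i).φ p.2) = π (0, (S.chart i).φ x)} with hT
      have hTf : T.Finite := hπ _
      have hT2 : ((fun p : (Fin (m + 1) → ℂ) × X => (p.1, (S.chart i).φ p.2)) '' (T \ {(0, x)})).Finite :=
        (hTf.subset Set.sdiff_subset).image _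
      refine ⟨V ∩ ((fun p : (Fin (m + 1) → ℂ) × X => (p.1, (S.chart i).φ p.2)) '' (T \ {(0, x)}))ᶜ,
        hV.inter hT2.isClosed.isOpen_compl, ⟨hzV, ?_⟩, π, ?_⟩
      · rintro ⟨q, ⟨hqT, hq0⟩, hq⟩
        apply hq0
        simp only [Prod.mk.injEq] at hq
        have h8 := (S.chart i).isEmbedding.injective (a₁ := ⟨q.2, hqT.1⟩) (a₂ := ⟨x, hx⟩) hq.2
        exact Prod.ext hq.1 (congrArg Subtype.val h8)
      · intro q hq hqs hqV hqπ
        by_contra hne
        exact hqV.2 ⟨q, ⟨⟨hqs, hqV.1, hq, hqπ⟩, hne⟩, rfl⟩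
    · have hzU : z ∈ U := ⟨hz, hz0⟩
      obtain ⟨V, hV, hzV, π, hπ⟩ := hf.dim (z, x) ((hgc z x hzU).1 hp) i hx
      refine ⟨V ∩ {p | p.1 ∈ U}, hV.inter (hUo.preimage continuous_fst), ⟨hzV, hzU⟩, π, ?_⟩
      intro q hq hqs hqV hqπ
      exact hπ q ((hgc q.1 q.2 hqV.2).1 hq) hqs hqV.1 hqπ
  · have hconn := compl_preconnected (by omega) I hI hf.interior_eq
    have hne : (Metric.ball 0 1 \ insert 0 I).Nonempty := by
      rw [hset]
      by_contra hcon
      rw [Set.not_nonempty_iff_eq_empty] at hcon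
      have h1 : (Metric.ball (0 : Fin (m + 1) → ℂ) 1) ⊆ insert 0 I := by
        intro z hz
        by_contra h2
        have h3 : z ∈ Metric.ball 0 1 \ insert 0 I := ⟨hz, h2⟩
        rw [hset, hcon] at h3
        exact h3
      have h2 : volume (Metric.ball (0 : Fin (m + 1) → ℂ) 1) = 0 := by
        refine measure_mono_null h1 ?_
        rw [Set.insert_eq]
        exact measure_union_null (measure_singleton 0) hI0
      exact (Metric.measure_ball_pos volume (0 : Fin (m + 1) → ℂ) one_pos).ne' h2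
    refine irreducible_graph S _ _ Metric.isOpen_ball ?_ hne ?_ f ?_
    · rw [hset]; exact hG
    · rw [hset]; exact hconn
    · rw [hset]; exact hf.holomorphic

end Pool.Agent.Results.MP_940f24_an.MeromorphicExtension
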